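import Pool.Agent.MWS.StmtsB

/-! # Squad MWS (MP_23468a_al), row LBB: bubble sort -/

set_option autoImplicit false

namespace Pool.Agent.MWS.H26

theorem lbb (hX : BfxStmt) : LbbStmt := by
  have claim : ∀ (v' p u' : List ℕ), (∀ c, u'.count c = v'.count c) →
      Relation.ReflTransGen (Stq (p ++ v')) (p ++ u') (p ++ v') := by
    intro v'
    induction v' with
    | nil =>
      intro p u' h
      have h1 : u' = [] := by
        rw [List.eq_nil_iff_forall_not_mem]
        intro c hc
        have h2 := List.count_pos_iff.2 hc
        rw [h c] at h2
        simp at h2
      rw [h1]
    | cons z v'' ih =>
      intro p u' h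
      have hz : z ∈ u' := by
        rw [← List.count_pos_iff, h z]
        simp
      obtain ⟨A, B, hAB, hzA⟩ := List.eq_append_cons_of_mem hz
      have hcount : ∀ c, (A ++ B).count c = v''.count c := by
        intro c
        have h1 := h c
        rw [hAB] at h1
        simp only [List.count_append, List.count_cons] at h1 ⊢
        omega
      have key : ∀ (A2 A1 : List ℕ), A = A1 ++ A2 →
          Relation.ReflTransGen (Stq (p ++ z :: v'')) (p ++ (A ++ z :: B))
            (p ++ (A1 ++ z :: (A2 ++ B))) := by
        intro A2
        induction A2 with
        | nil =>
          intro A1 hA
          rw [List.append_nil] at hA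
          rw [hA, List.nil_append]
        | cons a A2 ih2 =>
          intro A1 hA
          have h1 := ih2 (A1 ++ [a]) (by rw [hA]; simp)
          refine h1.tail ?_
          have haA : a ∈ A := by
            rw [hA]
            simp
          have haz : a ≠ z := by
            rintro rfl
            exact hzA haA
          have hav : a ∈ v'' := by
            rw [← List.count_pos_iff, ← hcount a, List.count_pos_iff]
            exact List.mem_append_left _ haA
          refine ⟨p ++ A1, A2 ++ B, a, z, haz, by simp, by simp, ?_, ?_⟩
          · intro _ h2
            exact h2 p v'' rfl hav
          · intro h2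
            have h3 : p ++ (A1 ++ z :: (a :: A2 ++ B)) = (p ++ A1) ++ z :: a :: (A2 ++ B) := by simp
            rw [h3] at h2
            obtain ⟨h4, h5⟩ := ((hX (p ++ A1) (A2 ++ B) a z haz).2.2.2.1).1 h2
            have hap : a ∉ p := fun h => h4 (List.mem_append_left _ h)
            have hzB : z ∉ B := fun h => h5 (List.mem_append_right _ h)
            have hzv : z ∉ v'' := by
              rw [← List.count_pos_iff, ← hcount z, List.count_pos_iff, List.mem_append]
              exact fun h => h.elim hzA hzB
            intro P Q hPQ hzQ
            rcases List.append_eq_append_iff.1 hPQ with ⟨c, h6, h7⟩ | ⟨c, h6, h7⟩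
            · cases c with
              | nil =>
                simp only [List.nil_append, List.cons.injEq] at h7
                exact haz h7.1.symm
              | cons d c =>
                simp only [List.cons_append, List.cons.injEq] at h7
                apply hzv
                rw [h7.2]
                exact List.mem_append_right _ (List.mem_cons_of_mem _ hzQ)
            · cases c with
              | nil =>
                simp only [List.nil_append, List.cons.injEq] at h7
                exact haz h7.1
              | cons d c =>
                simp only [List.cons_append, List.cons.injEq] at h7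
                apply hap
                rw [h6, h7.1]
                simp
      have h1 := key A [] rfl
      have h2 := ih (p ++ [z]) (A ++ B) hcount
      rw [hAB]
      have e1 : (p ++ [z]) ++ v'' = p ++ z :: v'' := by simp
      have e2 : (p ++ [z]) ++ (A ++ B) = p ++ ([] ++ z :: (A ++ B)) := by simp
      rw [e1, e2] at h2
      exact h1.trans h2
  intro u v h
  have h1 := claim v [] u h
  simpa using h1

end Pool.Agent.MWS.H26
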